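import Pool.Agent.Helper60_AK.StmtA

set_option autoImplicit false

namespace Pool.Agent.AK.H19

/-- Cauchy-Schwarz with a nonnegative weight. -/
lemma cs_weight {ι : Type} (g b : ι → ℝ) (hg : ∀ i, 0 ≤ g i) (h0 : Summable g)
    (h1 : Summable fun i => g i * b i) (h2 : Summable fun i => g i * b i ^ 2) :
    (∑' i, g i * b i) ^ 2 ≤ (∑' i, g i) * ∑' i, g i * b i ^ 2 := by
  set G := ∑' i, g i with hG
  set S := ∑' i, g i * b i with hS
  set T := ∑' i, g i * b i ^ 2 with hT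
  have hG0 : 0 ≤ G := tsum_nonneg hg
  have key : ∀ x : ℝ, 0 ≤ G * x ^ 2 - 2 * S * x + T := by
    intro x
    have e : G * x ^ 2 - 2 * S * x + T = ∑' i, g i * (x - b i) ^ 2 := by
      have h3 : ∀ i, g i * (x - b i) ^ 2 = g i * x ^ 2 - (g i * b i) * (2 * x) + g i * b i ^ 2 := by
        intro i; ring
      simp_rw [h3]
      rw [((h0.mul_right _).sub (h1.mul_right _)).tsum_add h2,
        (h0.mul_right _).tsum_sub (h1.mul_right _), tsum_mul_right, tsum_mul_right]
      ring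
    rw [e]
    exact tsum_nonneg fun i => mul_nonneg (hg i) (sq_nonneg _)
  rcases hG0.eq_or_lt with h | h
  · have hz : ∀ i, g i = 0 := by
      intro i
      exact le_antisymm ((h0.le_tsum i fun j _ => hg j).trans h.symm.le) (hg i)
    have : S = 0 := by
      rw [hS]; simp [hz]
    rw [this, ← h]; simp
  · have h3 := key (S / G)
    have h4 : G * (S / G) ^ 2 - 2 * S * (S / G) + T = T - S ^ 2 / G := by field_simp; ring
    rw [h4] at h3
    have h5 : S ^ 2 / G ≤ T := by linarith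
    rw [div_le_iff₀ h] at h5
    linarith

/-- A4 -/
theorem a4 : A4Stmt := by
  intro V _ _ _ K g w hg hgs hK hw
  set b : Z4 → ℝ := fun l => ‖w l‖ with hb
  have hb0 : ∀ l, 0 ≤ b l := fun l => norm_nonneg _
  have hbs : Summable fun l => b l ^ 2 := hw
  set e : Z4 × Z4 ≃ Z4 × Z4 :=
    { toFun := fun x => (x.1 - x.2, x.2)
      invFun := fun x => (x.1 + x.2, x.2)
      left_inv := fun x => by ext <;> simp
      right_inv := fun x => by ext <;> simp } with he
  have hprod : Summable fun x : Z4 × Z4 => g x.1 * b x.2 ^ 2 :=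
    hgs.mul_of_nonneg hbs hg fun l => sq_nonneg _
  have hF : Summable fun x : Z4 × Z4 => g (x.1 - x.2) * b x.2 ^ 2 := by
    have := (e.summable_iff (f := fun x : Z4 × Z4 => g x.1 * b x.2 ^ 2)).2 hprod
    exact this
  have hgk : ∀ k : Z4, Summable fun l => g (k - l) := fun k =>
    (Equiv.subLeft k).summable_iff.2 hgs
  have hT : ∀ k : Z4, Summable fun l => g (k - l) * b l ^ 2 := fun k => hF.prod_factor k
  have hS : ∀ k : Z4, Summable fun l => g (k - l) * b l := by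
    intro k
    refine Summable.of_nonneg_of_le (fun l => mul_nonneg (hg _) (hb0 l)) (fun l => ?_)
      ((hgk k).add (hT k))
    have h1 : b l ≤ 1 + b l ^ 2 := by nlinarith [sq_nonneg (b l - 1), hb0 l]
    calc g (k - l) * b l ≤ g (k - l) * (1 + b l ^ 2) := mul_le_mul_of_nonneg_left h1 (hg _)
      _ = g (k - l) + g (k - l) * b l ^ 2 := by ring
  have hle : ∀ k l, ‖K k l (w l)‖ ≤ g (k - l) * b l := fun k l =>
    ((K k l).le_opNorm _).trans (mul_le_mul_of_nonneg_right (hK k l) (norm_nonneg _))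
  have hKs : ∀ k, Summable fun l => K k l (w l) := fun k =>
    Summable.of_norm_bounded (hS k) (hle k)
  have hG : ∀ k : Z4, ∑' l, g (k - l) = ∑' l, g l := fun k => (Equiv.subLeft k).tsum_eq g
  have hpt : ∀ k, ‖∑' l, K k l (w l)‖ ^ 2 ≤ (∑' l, g l) * ∑' l, g (k - l) * b l ^ 2 := by
    intro k
    have h1 : ‖∑' l, K k l (w l)‖ ≤ ∑' l, g (k - l) * b l :=
      tsum_of_norm_bounded (hS k).hasSum (hle k)
    have h2 := cs_weight (fun l => g (k - l)) b (fun l => hg _) (hgk k) (hS k) (hT k)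
    rw [hG k] at h2
    exact (pow_le_pow_left₀ (norm_nonneg _) h1 2).trans h2
  have hTs : Summable fun k => ∑' l, g (k - l) * b l ^ 2 := hF.prod
  have hsum : Summable fun k => ‖∑' l, K k l (w l)‖ ^ 2 :=
    Summable.of_nonneg_of_le (fun k => sq_nonneg _) hpt (hTs.mul_left _)
  refine ⟨hKs, hsum, ?_⟩
  have h3 : ∑' k, ∑' l, g (k - l) * b l ^ 2 = (∑' k, g k) * ∑' l, b l ^ 2 := by
    rw [← hF.tsum_prod (f := fun x : Z4 × Z4 => g (x.1 - x.2) * b x.2 ^ 2)]
    rw [hgs.tsum_mul_tsum hbs hprod]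
    exact e.tsum_eq (fun x : Z4 × Z4 => g x.1 * b x.2 ^ 2)
  calc ∑' k, ‖∑' l, K k l (w l)‖ ^ 2
      ≤ ∑' k, (∑' l, g l) * ∑' l, g (k - l) * b l ^ 2 :=
        hsum.tsum_le_tsum hpt (hTs.mul_left _)
    _ = (∑' l, g l) * ((∑' k, g k) * ∑' l, b l ^ 2) := by rw [tsum_mul_left, h3]
    _ = (∑' k, g k) ^ 2 * ∑' k, ‖w k‖ ^ 2 := by ring

end Pool.Agent.AK.H19
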