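import Pool.Agent.Helper60_AK.StmtF

set_option autoImplicit false

namespace Pool.Agent.AK.H19

open Complex

lemma g_bound {g : ℂ → ℂ} {Cg M : ℝ} {N : ℕ}
    (hg : ∀ z : ℂ, |z.im| ≤ M → ‖g z‖ ≤ Cg * Real.exp (-((N : ℝ) * |z.re|))) {c : ℂ}
    (hc : ‖c‖ ≤ M) (L : ℝ) : ‖g ((L : ℂ) - c)‖ ≤
      |Cg| * Real.exp (N * M) * Real.exp (-((N : ℝ) * |L|)) := by
  have h1 : ((L : ℂ) - c).im = -c.im := by simp
  have h2 : ((L : ℂ) - c).re = L - c.re := by simp
  have h3 := hg ((L : ℂ) - c) (by rw [h1, abs_neg]; exact (abs_im_le_norm c).trans hc)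
  rw [h2] at h3
  have h4 : |L| - M ≤ |L - c.re| := by
    have h5 := abs_sub_abs_le_abs_sub L c.re
    have h6 := (abs_re_le_norm c).trans hc
    linarith
  calc ‖g ((L : ℂ) - c)‖ ≤ Cg * Real.exp (-((N : ℝ) * |L - c.re|)) := h3
    _ ≤ |Cg| * Real.exp (-((N : ℝ) * |L - c.re|)) :=
        mul_le_mul_of_nonneg_right (le_abs_self _) (Real.exp_pos _).le
    _ ≤ |Cg| * (Real.exp (N * M) * Real.exp (-((N : ℝ) * |L|))) := by
        apply mul_le_mul_of_nonneg_left _ (abs_nonneg _)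
        rw [← Real.exp_add]
        apply Real.exp_le_exp.2
        have h7 : (0 : ℝ) ≤ N := Nat.cast_nonneg N
        nlinarith
    _ = _ := by ring

/-- E3 -/
theorem e3 (hL5 : L5Stmt) : E3Stmt := by
  intro Ω ρ f k0 B V t0 c2 hA c0 hc0 k g hg N
  obtain ⟨C5, hC5⟩ := hL5 Ω ρ f k0 B V t0 c2 hA k
  have ht0 := hA.geo.t0pos
  have ht1 := hA.geo.t0le
  obtain ⟨U, hU, hVU, hcU⟩ := hc0
  have hcont : ContinuousOn c0 (closure V) := hcU.continuousOn.mono hVU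
  obtain ⟨M, hM⟩ := hA.geo.cpt.exists_bound_of_continuousOn hcont
  obtain ⟨Cg, hCg⟩ := hg.2 N M
  set K : ℝ := |Cg| * Real.exp (N * M) with hK
  have hK0 : 0 ≤ K := by positivity
  refine ⟨|C5| / Real.sqrt t0 ^ k * K * (1 / t0 ^ N) + |C5| * K, ?_⟩
  intro ε hε hεt p hp
  obtain ⟨hpV, hpρ⟩ := hp
  have hε1 : ε < 1 := lt_of_lt_of_le hεt ht1
  have hε2 : ε ^ 2 < t0 := by nlinarith
  have hMp : ‖c0 p‖ ≤ M := hM p (subset_closure hpV)
  have hF : ∀ t : ℝ, 0 < t → t ≤ t0 → ρ p < t / 2 → ‖Fk ρ f k p t‖ ≤ |C5| / Real.sqrt t ^ k := by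
    intro t h1 h2 h3
    have h4 := hC5 0 (Nat.zero_le _) t h1 h2 p hpV h3
    rw [norm_iteratedFDeriv_zero] at h4
    refine h4.trans ?_
    gcongr
    exact le_abs_self _
  have hbt : ∀ L : ℝ, 0 < ε * Real.exp L → ε * Real.exp L ≤ t0 → ρ p < ε * Real.exp L / 2 →
      ‖bt ρ f c0 ε k g p L‖ ≤ ε ^ k * (|C5| / Real.sqrt (ε * Real.exp L) ^ k) *
        (K * Real.exp (-((N : ℝ) * |L|))) := by
    intro L h1 h2 h3
    unfold bt
    rw [norm_mul, norm_mul, norm_pow, Complex.norm_real, Real.norm_of_nonneg hε.le]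
    have h4 := hF _ h1 h2 h3
    have h5 := g_bound hCg hMp L
    gcongr
  have htop : ‖bt ρ f c0 ε k g p (Real.log (t0 / ε))‖ ≤
      |C5| / Real.sqrt t0 ^ k * K * (1 / t0 ^ N) * ε ^ N := by
    have e1 : ε * Real.exp (Real.log (t0 / ε)) = t0 := by
      rw [Real.exp_log (by positivity)]; field_simp
    have h1 := hbt (Real.log (t0 / ε)) (by rw [e1]; exact ht0) (by rw [e1]) (by rw [e1]; linarith)
    rw [e1] at h1
    have hpos : 0 ≤ Real.log (t0 / ε) := Real.log_nonneg (by rw [le_div_iff₀ hε]; linarith)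
    have e2 : Real.exp (-((N : ℝ) * |Real.log (t0 / ε)|)) = (1 / t0 ^ N) * ε ^ N := by
      rw [abs_of_nonneg hpos, ← neg_mul, mul_comm, Real.exp_mul, Real.exp_log (by positivity),
        Real.rpow_neg (by positivity), Real.rpow_natCast, div_pow]
      field_simp
    rw [e2] at h1
    have e3 : ε ^ k ≤ 1 := pow_le_one₀ hε.le hε1.le
    calc _ ≤ _ := h1
      _ ≤ 1 * (|C5| / Real.sqrt t0 ^ k) * (K * ((1 / t0 ^ N) * ε ^ N)) := by gcongr
      _ = _ := by ring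
  have hbot : ‖bt ρ f c0 ε k g p (Real.log ε)‖ ≤ |C5| * K * ε ^ N := by
    have e1 : ε * Real.exp (Real.log ε) = ε ^ 2 := by
      rw [Real.exp_log hε]; ring
    have h1 := hbt (Real.log ε) (by rw [e1]; positivity) (by rw [e1]; exact hε2.le)
      (by rw [e1]; exact hpρ)
    rw [e1, Real.sqrt_sq hε.le] at h1
    have hneg : Real.log ε ≤ 0 := Real.log_nonpos hε.le hε1.le
    have e2 : Real.exp (-((N : ℝ) * |Real.log ε|)) = ε ^ N := by
      rw [abs_of_nonpos hneg]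
      have : -((N : ℝ) * -Real.log ε) = Real.log ε * N := by ring
      rw [this, Real.exp_mul, Real.exp_log hε, Real.rpow_natCast]
    rw [e2] at h1
    have e3 : ε ^ k * (|C5| / ε ^ k) = |C5| := by field_simp
    rw [e3] at h1
    calc _ ≤ _ := h1
      _ = _ := by ring
  unfold bk
  calc _ ≤ _ := norm_sub_le _ _
    _ ≤ |C5| / Real.sqrt t0 ^ k * K * (1 / t0 ^ N) * ε ^ N + |C5| * K * ε ^ N := add_le_add htop hbot
    _ = _ := by ring

end Pool.Agent.AK.H19
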